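import Pool.Agent.W543.CK.Tfae

/-!
# Chow-Kunneth decompositions and correspondences which are algebraic modulo rational equivalence

`C` are the Chow groups (with rational coefficients), `H` is a Weil cohomology theory, and
`HasCK H X` says that the variety `X` has a Chow-Kunneth decomposition. It has one if and only if
one correspondence `z` of degree zero which acts on `H^l(X)` as the multiplication by `l`, for all
`l`, is a zero of a nonzero polynomial with rational coefficients modulo rational equivalence.
-/

open CategoryTheory AlgebraicGeometry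

universe u v w

namespace Pool.Agent.Results.MP_638e8a_ag.AlgebraicWeight

open Pool.Agent.H914 Pool.Agent.H914.VarClass Pool.Agent.H914.VarClass.Obj Pool.Agent.W492.BB
  Pool.Agent.W550.Corr Pool.Agent.W550.Murre Pool.Agent.W543.CK

variable {k : Type u} [Field k] {𝒱 : VarClass k} {C : TheoryData.{u, v, 0} 𝒱 ℚ} {K : Type w}
  [Field K] [CharZero K]

theorem result (H : WeilTheoryData.{u, v, w} C K) [IsChow C] [IsWeil H] (hS : IsStandard H) :
    -- equivalent forms of the existence of a Chow-Kunneth decomposition of `X`
    (∀ X : 𝒱.Obj, [HasCK H X, HasAlgWeight H X, HasAlgSep H X, HasFinAlgebra H X].TFAE) ∧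
    -- the projectors can be taken to be polynomials in the correspondence `z`
    (∀ (X : 𝒱.Obj) (z : C.A (X.prod X)), C.Deg X.dim z → IsAlgCorr z → SepDegrees H z →
      ∃ π : ℕ → C.A (X.prod X), IsCK H X π ∧ ∀ j, ∃ g : Polynomial ℚ, π j = cEval g z) ∧
    -- a retract `X` of `Y` has a Chow-Kunneth decomposition if the correspondence of `X` obtained
    -- from one weight correspondence of `Y` is algebraic
    (∀ X Y : 𝒱.Obj, AlgRetract H X Y → HasCK H X) := by
  have hI : HasIso C := hasIso_of_std H hS
  exact ⟨fun X => ck_tfae hS X, fun X z h1 h2 h3 => ck_of_sep hS h1 h2 h3,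
    fun X Y ⟨a, b, w, h1, h2, h3, h4, h5, h6⟩ => ck_of_retract hS h1 h2 h3 h4 h5 h6⟩

end Pool.Agent.Results.MP_638e8a_ag.AlgebraicWeight
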